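import Pool.Agent.H.MP_47869a_co.B

namespace Pool.Agent.H.MP_0bc917_co
open Finset Pool.Agent.H.MP_47869a_co
open scoped Classical

variable {n : ℕ}

def Hi (r : ℕ) (w : Fin n → Fin n) (j : Fin n) : Prop :=
  ∃ i1 i2 : Fin n, (i1 : ℕ) + r + 1 ≤ i2 ∧ (i2 : ℕ) + r + 1 ≤ j ∧ w i2 < w i1 ∧ w i1 < w j

def Ok2 (r : ℕ) (s : Fin n → Option (Fin n)) (j x : Fin n) : Prop :=
  ∃ i1 i2 v1 v2 : Fin n, s i1 = some v1 ∧ s i2 = some v2 ∧ (i1 : ℕ) + r + 1 ≤ i2 ∧
    (i2 : ℕ) + r + 1 ≤ j ∧ v2 < v1 ∧ v1 < x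

noncomputable def st (r : ℕ) (w : Fin n → Fin n) (i : Fin n) : Option (Fin n) :=
  if Hi r w i then none else some (w i)

lemma Ok2.mono {r : ℕ} {s : Fin n → Option (Fin n)} {j j' x x' : Fin n} (h : Ok2 r s j x)
    (hj : j ≤ j') (hx : x ≤ x') : Ok2 r s j' x' := by
  obtain ⟨i1, i2, v1, v2, a1, a2, a3, a4, a5, a6⟩ := h
  exact ⟨i1, i2, v1, v2, a1, a2, a3, by rw [Fin.le_def] at hj; omega, a5, a6.trans_le hx⟩

lemma hi_ok {r : ℕ} {s : Fin n → Option (Fin n)} {w : Fin n → Fin n}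
    (h : ∀ i v, s i = some v → w i = v) (J : Fin n)
    (hJ : ∀ i < J, s i = none → Ok2 r s i (w i)) (hc : Hi r w J) : Ok2 r s J (w J) := by
  obtain ⟨i1, i2, a1, a2, a3, a4⟩ := hc
  cases e1 : s i1 with
  | none => exact (hJ i1 (by rw [Fin.lt_def]; omega) e1).mono (by rw [Fin.le_def]; omega) a4.le
  | some v1 =>
    cases e2 : s i2 with
    | none =>
      exact (hJ i2 (by rw [Fin.lt_def]; omega) e2).mono (by rw [Fin.le_def]; omega)
        (a3.trans a4).le
    | some v2 =>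
      obtain rfl := h _ _ e1
      obtain rfl := h _ _ e2
      exact ⟨i1, i2, _, _, e1, e2, a1, a2, a3, a4⟩

lemma ok_hi {r : ℕ} {s : Fin n → Option (Fin n)} {w : Fin n → Fin n}
    (h : ∀ i v, s i = some v → w i = v) {j : Fin n} (ho : Ok2 r s j (w j)) : Hi r w j := by
  obtain ⟨i1, i2, v1, v2, a1, a2, a3, a4, a5, a6⟩ := ho
  obtain rfl := h _ _ a1
  obtain rfl := h _ _ a2
  exact ⟨i1, i2, a3, a4, a5, a6⟩

lemma st_some {r : ℕ} {w : Fin n → Fin n} (i v : Fin n) (h : st r w i = some v) : w i = v := by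
  unfold st at h
  split_ifs at h
  exact Option.some.inj h

lemma st_none {r : ℕ} {w : Fin n → Fin n} {i : Fin n} : st r w i = none ↔ Hi r w i := by
  unfold st
  split_ifs with h <;> simp [h]

lemma st_ok {r : ℕ} {w : Fin n → Fin n} (j : Fin n) :
    st r w j = none → Ok2 r (st r w) j (w j) := by
  induction j using WellFoundedLT.induction with
  | ind j ih => exact fun h => hi_ok st_some j ih (st_none.1 h)

lemma st_eq {r : ℕ} {w0 w : Fin n → Fin n} (h : ∀ i v, st r w0 i = some v → w i = v)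
    (h' : ∀ i, st r w0 i = none → Ok2 r (st r w0) i (w i)) : st r w = st r w0 := by
  funext j
  cases e : st r w0 j with
  | none => exact st_none.2 (ok_hi h (h' j e))
  | some v =>
    have h1 := h j v e
    have h2 := st_some j v e
    have : ¬ Hi r w j := fun hc => by
      have ho := hi_ok h j (fun i _ => h' i) hc
      rw [h1, ← h2] at ho
      have := st_none.2 (ok_hi st_some ho)
      rw [e] at this
      cases this
    rw [st, if_neg this, h1]

def qB : Equiv.Perm (Fin 4) := Equiv.swap 0 1 * Equiv.swap 2 3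
def qA : Equiv.Perm (Fin 4) := Equiv.swap 0 1

lemma qB_contains {r : ℕ} {p : Equiv.Perm (Fin n)} {i1 i2 j j' : Fin n}
    (h0 : (i1 : ℕ) + r + 1 ≤ i2) (h1 : (i2 : ℕ) + r + 1 ≤ j) (h2 : (j : ℕ) + r + 1 ≤ j')
    (h3 : p i2 < p i1) (h4 : p i1 < p j') (h5 : p j' < p j) : Contains r qB p := by
  have e0 : qB 0 = 1 := by decide
  have e1 : qB 1 = 0 := by decide
  have e2 : qB 2 = 3 := by decide
  have e3 : qB 3 = 2 := by decide
  refine ⟨![i1, i2, j, j'], fun a b hab => ?_, fun a b => ?_⟩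
  · fin_cases a <;> fin_cases b <;> simp at hab ⊢ <;> assumption
  · fin_cases a <;> fin_cases b <;> simp [e0, e1, e2, e3] <;> omega

noncomputable def FB (r : ℕ) (s : Fin n → Option (Fin n)) : Finset (Equiv.Perm (Fin n)) :=
  (univ.filter (fun p : Equiv.Perm (Fin n) => ¬ Contains r qB p)).filter
    (fun p : Equiv.Perm (Fin n) => st r p = s)

noncomputable def FA (r : ℕ) (s : Fin n → Option (Fin n)) : Finset (Equiv.Perm (Fin n)) :=
  (univ.filter (fun p : Equiv.Perm (Fin n) => ¬ Contains r qA p)).filter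
    (fun p : Equiv.Perm (Fin n) => st r p = s)

lemma FB_le (r : ℕ) (p0 : Equiv.Perm (Fin n)) (ps : List (Fin n)) (N : Finset (Fin n))
    (hps : ∀ j, j ∈ ps ↔ st r p0 j = none) (hN : ∀ y, y ∈ N ↔ ∃ i, st r p0 i = none ∧ p0 i = y) :
    #(FB r (st r p0)) ≤ #(univ.filter (Q r (Ok2 r (st r p0))
      (fun j x y => Ok2 r (st r p0) j y ∧ y < x) ps ∅ ∅ N (fun _ => 0) p0)) := by
  set s := st r p0 with hs
  have hlow : ∀ j, ¬ s j = none → s j = some (p0 j) := fun j hj => by
    obtain ⟨v, hv⟩ := Option.ne_none_iff_exists'.1 hj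
    rw [hv, st_some j v hv]
  refine card_le_card_of_injOn (fun p : Equiv.Perm (Fin n) => (p : Fin n → Fin n)) ?_
    (fun p _ p' _ h => DFunLike.coe_injective h)
  intro p hp
  simp only [FB, coe_filter, mem_filter, mem_univ, true_and, Set.mem_ofPred_eq] at hp ⊢
  obtain ⟨hav, hp⟩ := hp
  have hl : ∀ j, ¬ s j = none → p j = p0 j := fun j hj => st_some j _ (by rw [hp, hlow j hj])
  refine ⟨fun i hi => hl i (by rwa [hps] at hi), fun j hj => Or.inr (Or.inr ?_),
    fun y hy => ?_, fun j _ j' _ h => p.injective h, fun j hj => ?_, by simp,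
    fun j hj j' hj' hlt ⟨⟨i1, i2, v1, v2, a1, a2, a3, a4, a5, a6⟩, a7⟩ => ?_⟩
  · rw [hN]
    refine ⟨p0.symm (p j), ?_, by simp⟩
    by_contra hh
    have := hl _ hh
    rw [Equiv.apply_symm_apply] at this
    rw [p.injective this] at hh
    exact hh ((hps j).1 hj)
  · simp only [notMem_empty, false_or] at hy
    obtain ⟨i, hi, rfl⟩ := (hN y).1 hy
    refine ⟨p.symm (p0 i), (hps _).2 ?_, by simp⟩
    by_contra hh
    have := hl _ hh
    rw [Equiv.apply_symm_apply] at this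
    rw [← p0.injective this] at hh
    exact hh hi
  · have := st_ok (r := r) (w := p) j (by rw [hp]; exact (hps j).1 hj)
    rwa [hp] at this
  · by_contra hh
    obtain rfl := st_some (w := p) i1 v1 (by rw [hp]; exact a1)
    obtain rfl := st_some (w := p) i2 v2 (by rw [hp]; exact a2)
    exact hav (qB_contains a3 a4 (by omega) a5 a6 a7)

lemma le_FA (r : ℕ) (p0 : Equiv.Perm (Fin n)) (ps : List (Fin n)) (N : Finset (Fin n))
    (hps : ∀ j, j ∈ ps ↔ st r p0 j = none) (hN : ∀ y, y ∈ N ↔ ∃ i, st r p0 i = none ∧ p0 i = y) :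
    #(univ.filter (Q r (Ok2 r (st r p0)) (fun _ x y => x < y) ps ∅ ∅ N (fun _ => 0) p0)) ≤
      #(FA r (st r p0)) := by
  set s := st r p0 with hs
  refine le_trans (card_le_card ?_) (card_image_le (f := fun p : Equiv.Perm (Fin n) =>
    (p : Fin n → Fin n)))
  intro w hw
  obtain ⟨h1, h2, -, h4, h5, -, h7⟩ := (mem_filter.1 hw).2
  have hl : ∀ j, ¬ s j = none → w j = p0 j := fun j hj => h1 j (by rwa [hps])
  have hh : ∀ j j', s j = none → ¬ s j' = none → w j ≠ w j' := fun j j' hj hj' e => by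
    have := h2 j ((hps j).2 hj)
    simp only [notMem_empty, false_or] at this
    obtain ⟨i, hi, e'⟩ := (hN _).1 this
    rw [e, hl j' hj'] at e'
    exact hj' (p0.injective e' ▸ hi)
  have hinj : Function.Injective w := fun j j' e => by
    by_cases a : s j = none <;> by_cases a' : s j' = none
    · exact h4 j ((hps j).2 a) j' ((hps j').2 a') e
    · exact absurd e (hh j j' a a')
    · exact absurd e.symm (hh j' j a' a)
    · rw [hl j a, hl j' a'] at e; exact p0.injective e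
  have he : st r w = s := st_eq (fun i v h => by
    rw [hl i (by rw [hs, h]; simp), st_some i v h]) (fun i hi => h5 i ((hps i).2 hi))
  refine mem_image.2 ⟨Equiv.ofBijective w (Finite.injective_iff_bijective.1 hinj), ?_, rfl⟩
  simp only [FA, mem_filter, mem_univ, true_and]
  refine ⟨?_, he⟩
  rintro ⟨f, f1, f2⟩
  have g0 := f1 0 1 rfl
  have g1 := f1 1 2 rfl
  have g2 := f1 2 3 rfl
  have c1 : s (f 2) = none := he ▸ st_none.2
    ⟨f 0, f 1, g0, g1, (f2 1 0).2 (by decide), (f2 0 2).2 (by decide)⟩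
  have c2 : s (f 3) = none := he ▸ st_none.2
    ⟨f 0, f 1, g0, by omega, (f2 1 0).2 (by decide), (f2 0 3).2 (by decide)⟩
  have := h7 _ ((hps _).2 c1) _ ((hps _).2 c2) (by rw [Fin.lt_def]; omega)
    ((f2 2 3).2 (by decide))
  omega

lemma fiber2 (r : ℕ) (s : Fin n → Option (Fin n)) : #(FB r s) ≤ #(FA r s) := by
  rcases (FB r s).eq_empty_or_nonempty with h | ⟨p0, h0⟩
  · rw [h]; simp
  obtain rfl := (mem_filter.1 h0).2
  exact (FB_le r p0 ((univ.filter (fun j => st r p0 j = none)).sort (· ≤ ·))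
    ((univ.filter (fun j => st r p0 j = none)).image p0) (by simp) (by simp)).trans
    ((board r _ (fun j j' y h h' => h'.mono h le_rfl) (fun j y y' h h' => h'.mono le_rfl h) _
      (sortedLT_sort _).pairwise _ _).trans (le_FA r p0 _ _ (by simp) (by simp)))

def val (t i : ℕ) : ℕ :=
  if i = 0 then t + 5 else if i = 1 then t + 3 else if i = 2 then t + 2 else if i = 3 then t + 1
  else if i = 4 then t + 6 else if i = 5 then t + 4 else if i = 6 then t else if i = 7 then t + 7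
  else t + 7 - i

def pf (t : ℕ) (i : Fin (t + 8)) : Fin (t + 8) :=
  ⟨val t i, by unfold val; split_ifs <;> omega⟩

lemma pf_inj (t : ℕ) : Function.Injective (pf t) := by
  intro i j h
  have := i.2
  have := j.2
  simp only [pf, Fin.mk.injEq, val] at h
  apply Fin.ext
  split_ifs at h <;> omega

noncomputable def p0 (t : ℕ) : Equiv.Perm (Fin (t + 8)) :=
  Equiv.ofBijective (pf t) (Finite.injective_iff_bijective.1 (pf_inj t))

lemma p0_val (t : ℕ) (i : Fin (t + 8)) : (p0 t i : ℕ) = val t i := rfl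

lemma hi_iff (t : ℕ) (j : Fin (t + 8)) :
    st 1 (p0 t) j = none ↔ ((j : ℕ) = 4 ∨ (j : ℕ) = 5 ∨ (j : ℕ) = 7) := by
  rw [st_none]
  constructor
  · rintro ⟨i1, i2, a1, a2, -, a4⟩
    rw [Fin.lt_def, p0_val, p0_val] at a4
    have := j.2
    unfold val at a4
    split_ifs at a4 <;> omega
  · rintro (h | h | h)
    · exact ⟨⟨0, by omega⟩, ⟨2, by omega⟩, by simp, by simp; omega,
        by simp [Fin.lt_def, p0_val, val], by simp [Fin.lt_def, p0_val, val, h]⟩
    · exact ⟨⟨1, by omega⟩, ⟨3, by omega⟩, by simp, by simp; omega,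
        by simp [Fin.lt_def, p0_val, val], by simp [Fin.lt_def, p0_val, val, h]⟩
    · exact ⟨⟨0, by omega⟩, ⟨2, by omega⟩, by simp, by simp; omega,
        by simp [Fin.lt_def, p0_val, val], by simp [Fin.lt_def, p0_val, val, h]⟩

lemma low_eq (t : ℕ) (j : Fin (t + 8)) (h : (j : ℕ) ≤ 3) : st 1 (p0 t) j = some (p0 t j) := by
  have : ¬ Hi 1 (p0 t) j := by rw [← st_none, hi_iff]; omega
  rw [st, if_neg this]

lemma ok4 (t : ℕ) (j x : Fin (t + 8)) (hj : (j : ℕ) = 4) :
    Ok2 1 (st 1 (p0 t)) j x ↔ t + 5 < x := by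
  constructor
  · rintro ⟨i1, i2, v1, v2, a1, a2, a3, a4, a5, a6⟩
    obtain rfl := st_some _ _ a1
    rw [Fin.lt_def, p0_val, show (i1 : ℕ) = 0 by omega] at a6
    simpa [val] using a6
  · intro h
    exact ⟨⟨0, by omega⟩, ⟨2, by omega⟩, _, _, low_eq t _ (by simp), low_eq t _ (by simp), by simp,
      by simp; omega, by simp [Fin.lt_def, p0_val, val], by simpa [Fin.lt_def, p0_val, val] using h⟩

lemma ok5 (t : ℕ) (j x : Fin (t + 8)) (hj : 5 ≤ (j : ℕ)) (h : t + 3 < x) :
    Ok2 1 (st 1 (p0 t)) j x :=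
  ⟨⟨1, by omega⟩, ⟨3, by omega⟩, _, _, low_eq t _ (by simp), low_eq t _ (by simp), by simp,
    by simp; omega, by simp [Fin.lt_def, p0_val, val], by simpa [Fin.lt_def, p0_val, val] using h⟩

lemma strict (t : ℕ) : #(FB 1 (st 1 (p0 t))) < #(FA 1 (st 1 (p0 t))) := by
  let a : Fin (t + 8) := ⟨4, by omega⟩
  let b : Fin (t + 8) := ⟨5, by omega⟩
  let c : Fin (t + 8) := ⟨7, by omega⟩
  let x : Fin (t + 8) := ⟨t + 4, by omega⟩
  let y : Fin (t + 8) := ⟨t + 6, by omega⟩
  let z : Fin (t + 8) := ⟨t + 7, by omega⟩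
  have hps : ∀ j, j ∈ [a, b, c] ↔ st 1 (p0 t) j = none := fun j => by
    simp [hi_iff, a, b, c, Fin.ext_iff]
  have hN : ∀ v, v ∈ ({x, y, z} : Finset (Fin (t + 8))) ↔
      ∃ i, st 1 (p0 t) i = none ∧ p0 t i = v := fun v => by
    simp only [mem_insert, mem_singleton, hi_iff]
    constructor
    · rintro (rfl | rfl | rfl)
      · exact ⟨b, by simp [b], by simp [Fin.ext_iff, p0_val, val, b, x]⟩
      · exact ⟨a, by simp [a], by simp [Fin.ext_iff, p0_val, val, a, y]⟩
      · exact ⟨c, by simp [c], by simp [Fin.ext_iff, p0_val, val, c, z]⟩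
    · rintro ⟨i, h | h | h, rfl⟩ <;> simp [Fin.ext_iff, p0_val, val, h, x, y, z]
  refine (FB_le 1 _ _ _ hps hN).trans_lt (lt_of_lt_of_le ?_ (le_FA 1 _ _ _ hps hN))
  refine lt_of_le_of_lt (b := 1) ?_ ?_
  · have key : ∀ w, Q 1 (Ok2 1 (st 1 (p0 t))) (fun j x y => Ok2 1 (st 1 (p0 t)) j y ∧ y < x)
        [a, b, c] ∅ ∅ {x, y, z} (fun _ => 0) (p0 t) w →
        (w a : ℕ) = t + 6 ∧ (w b : ℕ) = t + 4 ∧ (w c : ℕ) = t + 7 := by
      rintro w ⟨-, h2, -, h4, h5, -, h7⟩
      have a1 := h2 a (by simp)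
      have a2 := h2 b (by simp)
      have a3 := h2 c (by simp)
      simp only [notMem_empty, false_or, mem_insert, mem_singleton, Fin.ext_iff, x, y, z] at a1 a2 a3
      have b1 := h4 a (by simp) b (by simp)
      have b2 := h4 a (by simp) c (by simp)
      have b3 := h4 b (by simp) c (by simp)
      have c1 := (ok4 t a _ rfl).1 (h5 a (by simp))
      have d1 := h7 a (by simp) c (by simp) (by simp [a, c])
      have d2 := h7 b (by simp) c (by simp) (by simp [b, c])
      simp only [ok4 t a _ rfl, Fin.lt_def] at d1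
      have d3 : ¬ (w c : ℕ) < w b := fun h => by
        have := d2 ⟨ok5 t b _ le_rfl (by omega), h⟩
        simp [b, c] at this
      simp only [Fin.ext_iff, a, b, c] at *
      omega
    rw [card_le_one]
    intro u hu v hv
    have k1 := key u (mem_filter.1 hu).2
    have k2 := key v (mem_filter.1 hv).2
    funext i
    by_cases hi : i ∈ [a, b, c]
    · simp only [List.mem_cons, List.not_mem_nil, or_false] at hi
      rcases hi with rfl | rfl | rfl <;> apply Fin.ext <;> omega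
    · rw [(mem_filter.1 hu).2.1 i hi, (mem_filter.1 hv).2.1 i hi]
  · have key : ∀ u v : Fin (t + 8), (u = y ∧ v = z) ∨ (u = z ∧ v = y) →
        Q 1 (Ok2 1 (st 1 (p0 t))) (fun _ x y => x < y) [a, b, c] ∅ ∅ {x, y, z} (fun _ => 0) (p0 t)
        (fun i => if i = a then u else if i = b then v else if i = c then x else p0 t i) := by
      intro u v huv
      have ab : b ≠ a := by simp [a, b]
      have ac : c ≠ a := by simp [a, c]
      have bc : c ≠ b := by simp [b, c]
      have o1 : Ok2 1 (st 1 (p0 t)) a u := (ok4 t a _ rfl).2 (by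
        rcases huv with ⟨rfl, -⟩ | ⟨rfl, -⟩ <;> simp [y, z])
      have o2 : Ok2 1 (st 1 (p0 t)) b v := ok5 t b _ le_rfl (by
        rcases huv with ⟨-, rfl⟩ | ⟨-, rfl⟩ <;> simp [y, z])
      have o3 : Ok2 1 (st 1 (p0 t)) c x := ok5 t c _ (by simp [c]) (by simp [x])
      refine ⟨fun i hi => ?_, ?_, ?_, ?_, ?_, by simp, ?_⟩
      · simp only [List.mem_cons, List.not_mem_nil, or_false, not_or] at hi
        simp [hi.1, hi.2.1, hi.2.2]
      · rcases huv with ⟨rfl, rfl⟩ | ⟨rfl, rfl⟩ <;> simp [ab, ac, bc]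
      · rcases huv with ⟨rfl, rfl⟩ | ⟨rfl, rfl⟩ <;> simp [ab, ac, bc]
      · rcases huv with ⟨rfl, rfl⟩ | ⟨rfl, rfl⟩ <;> simp [ab, ac, bc] <;>
          simp [Fin.ext_iff, x, y, z]
      · simp [ab, ac, bc, o1, o2, o3]
      · rcases huv with ⟨rfl, rfl⟩ | ⟨rfl, rfl⟩ <;> simp [ab, ac, bc] <;>
          simp [Fin.lt_def, x, y, z, a, b, c]
    rw [one_lt_card]
    refine ⟨_, mem_filter.2 ⟨mem_univ _, key y z (Or.inl ⟨rfl, rfl⟩)⟩, _,
      mem_filter.2 ⟨mem_univ _, key z y (Or.inr ⟨rfl, rfl⟩)⟩, fun h => ?_⟩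
    have := congrFun h a
    simp [y, z] at this

lemma main1 (t : ℕ) :
    #(univ.filter (fun p : Equiv.Perm (Fin (t + 8)) => ¬ Contains 1 qB p)) <
    #(univ.filter (fun p : Equiv.Perm (Fin (t + 8)) => ¬ Contains 1 qA p)) := by
  rw [card_eq_sum_card_fiberwise (f := fun p : Equiv.Perm (Fin (t + 8)) => st 1 p) (t := univ)
      (fun _ _ => mem_coe.2 (mem_univ _)),
    card_eq_sum_card_fiberwise (f := fun p : Equiv.Perm (Fin (t + 8)) => st 1 p) (t := univ)
      (s := univ.filter (fun p : Equiv.Perm (Fin (t + 8)) => ¬ Contains 1 qA p))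
      (fun _ _ => mem_coe.2 (mem_univ _))]
  exact sum_lt_sum (fun s _ => fiber2 1 s) ⟨_, mem_univ _, strict t⟩

lemma main2 (r n : ℕ) :
    #(univ.filter (fun p : Equiv.Perm (Fin n) => ¬ Contains r qA p)) ≤
    #(univ.filter (fun p : Equiv.Perm (Fin n) =>
      ¬ Contains r (Equiv.swap (2 : Fin 4) 3) p)) := by
  refine card_le_card_of_injOn (fun p => Fin.revPerm * p * Fin.revPerm) ?_
    (fun p _ p' _ h => by simpa using h)
  intro p hp
  simp only [coe_filter, mem_univ, true_and, Set.mem_ofPred_eq] at hp ⊢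
  rintro ⟨f, f1, f2⟩
  refine hp ⟨fun a => (f a.rev).rev, fun a b hab => ?_, fun a b => ?_⟩
  · have := f1 b.rev a.rev (by simp only [Fin.val_rev]; omega)
    have := (f a.rev).2
    simp only [Fin.val_rev]
    omega
  · have := f2 b.rev a.rev
    simp only [Equiv.Perm.mul_apply, Fin.revPerm_apply, Fin.rev_lt_rev] at this
    rw [this]
    exact (by decide : ∀ a b : Fin 4,
      ((Equiv.swap (2 : Fin 4) 3) b.rev < (Equiv.swap (2 : Fin 4) 3) a.rev ↔ qA a < qA b)) a b

end Pool.Agent.H.MP_0bc917_co
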